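import Mathlib

/-!
# Definitions for the criteria for the motivic t-structure
-/

set_option linter.unusedSectionVars false

open CategoryTheory Limits MonoidalCategory Triangulated Pretriangulated

namespace Pool.Agent.W492.MT

universe v u v' u' w

/-! ## t-structures -/

section
variable {T : Type u} [Category.{v} T] [HasZeroObject T] [HasShift T ℤ] [Preadditive T]
  [∀ n : ℤ, (shiftFunctor T n).Additive] [Pretriangulated T]

/-- the t-structure is non-degenerate. -/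
def NonDegenerate (t : TStructure T) : Prop :=
  (∀ X, (∀ n, t.le n X) → IsZero X) ∧ (∀ X, (∀ n, t.ge n X) → IsZero X)

/-- the t-structure is bounded. -/
def Bounded (t : TStructure T) : Prop :=
  ∀ X, (∃ b, t.le b X) ∧ (∃ a, t.ge a X)

/-- The tensor product is t-exact : `⊗` maps `≤ 0` and `≤ 0` to `≤ 0`, and `≥ 0` and `≥ 0` to
`≥ 0`. -/
def TensorExact [MonoidalCategory T] (t : TStructure T) : Prop :=
  ∀ X Y : T, (t.le 0 X → t.le 0 Y → t.le 0 (X ⊗ Y)) ∧ (t.ge 0 X → t.ge 0 Y → t.ge 0 (X ⊗ Y))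

/-- `E` is a simple object of degree `0` : it is concentrated in degree `0`, and the cone of every
nonzero morphism from an object concentrated in degree `0` to `E` is `≤ -1`. -/
def SimpleDegZero (s : TStructure T) (E : T) : Prop :=
  s.le 0 E ∧ s.ge 0 E ∧ ∀ (Y C : T) (u : Y ⟶ E) (a : E ⟶ C) (b : C ⟶ Y⟦(1 : ℤ)⟧),
    Triangle.mk u a b ∈ distTriang T → s.le 0 Y → s.ge 0 Y → u ≠ 0 → s.le (-1) C

/-- The functor `R` is t-exact. -/
def TExact {D : Type u'} [Category.{v'} D] [HasZeroObject D] [HasShift D ℤ] [Preadditive D]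
    [∀ n : ℤ, (shiftFunctor D n).Additive] [Pretriangulated D]
    (t : TStructure T) (s : TStructure D) (R : T ⥤ D) : Prop :=
  ∀ (n : ℤ) (X : T), (t.le n X → s.le n (R.obj X)) ∧ (t.ge n X → s.ge n (R.obj X))

end

/-! ## symmetric powers and traces -/

section
variable {T : Type u} [Category.{v} T] [MonoidalCategory T]

/-- the tensor power `X ⊗ (X ⊗ (⋯ ⊗ 𝟙))`. -/
def tpow (X : T) : ℕ → T
  | 0 => 𝟙_ T
  | n + 1 => X ⊗ tpow X n

variable [SymmetricCategory T]

/-- the sum of the permutations moving the first factor of `X ⊗ X^{⊗ n}` to the right. -/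
def ins [Preadditive T] (X : T) : ∀ n : ℕ, X ⊗ tpow X n ⟶ X ⊗ tpow X n
  | 0 => 𝟙 _
  | n + 1 => 𝟙 _ + ((α_ X X (tpow X n)).inv ≫ (β_ X X).hom ▷ tpow X n ≫
      (α_ X X (tpow X n)).hom) ≫ (X ◁ ins X n)

/-- the sum of all the permutations of the factors of `X^{⊗ n}`. -/
def symm [Preadditive T] (X : T) : ∀ n : ℕ, tpow X n ⟶ tpow X n
  | 0 => 𝟙 _
  | n + 1 => (X ◁ symm X n) ≫ ins X n

/-- the trace of an endomorphism. -/
def tr [RightRigidCategory T] {X : T} (c : X ⟶ X) : 𝟙_ T ⟶ 𝟙_ T :=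
  η_ X Xᘁ ≫ c ▷ Xᘁ ≫ (β_ X Xᘁ).hom ≫ ε_ X Xᘁ

end

/-- `X` is a direct sum of `n` objects with the property `𝒬`. -/
def IsSum {T : Type u} [Category.{v} T] [Preadditive T] [HasBinaryBiproducts T]
    (𝒬 : ObjectProperty T) : ℕ → T → Prop
  | 0 => fun X => IsZero X
  | n + 1 => fun X => ∃ A B : T, 𝒬 A ∧ IsSum 𝒬 n B ∧ Nonempty (X ≅ A ⊞ B)

/-! ## realisations and Chow motives -/

variable {T : Type u} [Category.{v} T] [HasZeroObject T] [HasShift T ℤ] [Preadditive T]
  [∀ n : ℤ, (shiftFunctor T n).Additive] [Pretriangulated T]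
  [MonoidalCategory T] [SymmetricCategory T] [RightRigidCategory T]
  {I : Type w} {D : I → Type u'} [∀ i, Category.{v'} (D i)] [∀ i, HasZeroObject (D i)]
  [∀ i, HasShift (D i) ℤ] [∀ i, Preadditive (D i)]
  [∀ i, ∀ n : ℤ, (shiftFunctor (D i) n).Additive] [∀ i, Pretriangulated (D i)]
  [∀ i, MonoidalCategory (D i)]
  (R : ∀ i, T ⥤ D i) (s : ∀ i, TStructure (D i)) (𝒞 : ObjectProperty T)

/-- All the realisations of `X` are concentrated in degree `n`. -/
def InDeg (n : ℤ) : ObjectProperty T := fun X =>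
  (∀ i, (s i).le n ((R i).obj X)) ∧ ∀ i, (s i).ge n ((R i).obj X)

/-- The formal properties of the category `T` of constructible motives, of its realisation functors
`R i : T ⥤ D i` (the `D i` having t-structures `s i`) and of the class `𝒞` of Chow motives. -/
structure Setup (F : Type) [Field F] [Linear F T] : Prop where
  /-- the endomorphisms of the unit of `T` are scalars -/
  scalar : ∀ e : 𝟙_ T ⟶ 𝟙_ T, ∃ a : F, e = a • 𝟙 _
  bounded : ∀ i, Bounded (s i)
  tensorExact : ∀ i, TensorExact (s i)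
  unit_ne : ∀ i, ¬ IsZero (𝟙_ (D i))
  /-- the unit of `D i` is a simple object of degree `0` -/
  unit_simple : ∀ i, SimpleDegZero (s i) (𝟙_ (D i))
  /-- the objects with realisation concentrated in degree `-1` are oddly finite dimensional -/
  oddFinite : ∀ (W : T) (i : I), (s i).le (-1) ((R i).obj W) → (s i).ge (-1) ((R i).obj W) →
    ∃ n, (R i).map (symm W n) = 0
  one_mem : 𝒞 (𝟙_ T)
  tensor_mem : ∀ X Y, 𝒞 X → 𝒞 Y → 𝒞 (X ⊗ Y)
  dual_mem : ∀ X, 𝒞 X → 𝒞 Xᘁ
  sum_mem : ∀ X Y, 𝒞 X → 𝒞 Y → 𝒞 (X ⊞ Y)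
  retract_mem : ∀ X Y, 𝒞 Y → Nonempty (Retract X Y) → 𝒞 X
  /-- orthogonality -/
  orth : ∀ X Y, 𝒞 X → 𝒞 Y → ∀ m : ℤ, 0 < m → ∀ f : X ⟶ Y⟦m⟧, f = 0
  /-- `𝒞` generates the triangulated category `T` -/
  gen : ∀ P : ObjectProperty T, P.IsClosedUnderIsomorphisms → P.IsTriangulated →
    (∀ X, 𝒞 X → P X) → ∀ X, P X
  dual_deg : ∀ X d, 𝒞 X → InDeg R s d X → InDeg R s (-d) Xᘁ
  /-- the trace form on `End X` has finite rank -/
  finRank : ∀ X, 𝒞 X → ∃ (r : ℕ) (b : Fin r → (X ⟶ X)), ∀ a : X ⟶ X,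
    (∀ j, tr (b j ≫ a) = 0) → ∀ c : X ⟶ X, tr (c ≫ a) = 0
  /-- nilpotent endomorphisms have trace `0` -/
  trNil : ∀ X, 𝒞 X → ∀ c : End X, IsNilpotent c → tr (X := X) c = 0

/-- Every Chow motive is a direct summand of a Chow motive `V` with the hard Lefschetz property
with some centre `c` : for every `m` there are an invertible object `J` in degree `-2m` and a
morphism `φ : V ⟶ J ⊗ V` inducing an isomorphism on the cohomology of all the realisations in
degree `c - m`. -/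
def Lefschetz : Prop :=
  ∀ X, 𝒞 X → ∃ (V : T) (c : ℤ), 𝒞 V ∧ Nonempty (Retract X V) ∧
    ∀ m : ℕ, ∃ (J J' : T) (φ : V ⟶ J ⊗ V), InDeg R s (-(2 * m)) J ∧ Nonempty (J' ⊗ J ≅ 𝟙_ T) ∧
      ∀ i, IsIso (((s i).truncGELE (c - m) (c - m)).map ((R i).map φ))

/-- Every Chow motive is a finite direct sum of Chow motives whose realisations are concentrated in
one degree. -/
def Kunneth : Prop :=
  ∀ X, 𝒞 X → ∃ n, IsSum (fun Y => ∃ d, 𝒞 Y ∧ InDeg R s d Y) n X

/-- The Frobenius `Fr` of `T` over a finite field : a natural endomorphism of the identity functor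
compatible with shifts and with `Fr = 1` on the unit, such that `1 - Fr` is invertible on the
cohomology in degree `m ≠ 0` of the realisations of a Chow motive (Deligne); and the Kuenneth
projectors of the realisations of a Chow motive are induced by endomorphisms (Katz and Messing). -/
structure Weil (Fr : ∀ X : T, X ⟶ X) : Prop where
  natural : ∀ (X Y : T) (f : X ⟶ Y), f ≫ Fr Y = Fr X ≫ f
  unit : Fr (𝟙_ T) = 𝟙 _
  shift : ∀ (X : T) (n : ℤ), Fr (X⟦n⟧) = (Fr X)⟦n⟧'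
  weight : ∀ (X : T) (m : ℤ), 𝒞 X → m ≠ 0 → ∀ i,
    IsIso (((s i).truncGELE 0 0).map ((R i).map ((𝟙 X - Fr X)⟦m⟧')))
  projector : ∀ X, 𝒞 X → ∀ d : ℤ, ∃ π : X ⟶ X, ∀ i,
    ((s i).truncGELE d d).map ((R i).map π) = 𝟙 _ ∧
      ∀ n, n ≠ d → ((s i).truncGELE n n).map ((R i).map π) = 0

end Pool.Agent.W492.MT
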